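import Pool.Agent.H438R3.BSD.NF4

/-!
# The leading coefficient of `L(E/K, s)` at `s = 1` as a limit of logarithmic averages

Let `E : y² = x³ + a x + b` be an elliptic curve over a number field `K` with integral coefficients,
`F` the entire continuation of its (incomplete) `L`-function, of polynomial growth in `Re s ≥ 1`,
`m` its order of vanishing at `s = 1` and `l = lim F(s) / (s - 1) ^ m`. Let `SP(n)` be the sum of
`t_k(v) / (k q_v ^ k)` over the good places `v` and the `k ≥ 1` with `q_v ^ k ≤ n`, where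
`t_k(v) = q_v ^ k + 1 - #E(k_{v,k})` is the trace of the `k`-th power of Frobenius, and let `LS(x)`
be the logarithmic average over `n ≤ x` of `-SP(n) - κ log log n`. Then for every real `κ`
the following are equivalent:

1. `F(s) ≠ 0` for `Re s > 1`, and `κ = m`;
2. the averages `LS` converge;
3. the averages `LS` converge to `κ γ - log |l|`;
4. the averages `LS` are bounded above, and `κ ≤ m`.

Moreover for `Λ > 0` the averages converge to `κ γ - log Λ` if and only if `F(s) ≠ 0` for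
`Re s > 1`, `κ = m` and `|l| = Λ`. For `κ` the rank and `Λ` the right hand side of the conjecture
this is an elementary statement about numbers of points which is equivalent to the Riemann
hypothesis for `L(E/K, s)` together with parts (i) and (iii) of the conjecture (up to the sign of the
leading coefficient).
-/

set_option autoImplicit false

open Filter NumberField Topology

namespace Pool.Agent.Results.MP_9ab903_nt.LeadingCoefficient

open Pool.Agent.H438R3.BSD.NF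

/-- See the introduction. -/
theorem result (K : Type) [Field K] [NumberField K] (a b : 𝓞 K)
    (_hab : 4 * a ^ 3 + 27 * b ^ 2 ≠ 0) (F : ℂ → ℂ) (hF : IsL a b F)
    (hgr : ∃ C A : ℝ, ∀ s : ℂ, 1 ≤ s.re → ‖F s‖ ≤ C * (1 + ‖s‖) ^ A) :
    ∃ (m : ℕ) (l : ℂ), analyticOrderAt F 1 = m ∧ l ≠ 0 ∧
      Tendsto (fun s : ℂ => F s / (s - 1) ^ m) (𝓝[≠] 1) (𝓝 l) ∧
      (∀ κ : ℝ, List.TFAE [
        (∀ s : ℂ, 1 < s.re → F s ≠ 0) ∧ κ = m,
        ∃ t : ℝ, Tendsto (fun n : ℕ => LS a b κ n) atTop (𝓝 t),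
        Tendsto (fun n : ℕ => LS a b κ n) atTop
          (𝓝 (κ * Real.eulerMascheroniConstant - Real.log ‖l‖)),
        κ ≤ m ∧ ∃ C : ℝ, ∀ n : ℕ, LS a b κ n ≤ C]) ∧
      ∀ κ Λ : ℝ, 0 < Λ →
        (((∀ s : ℂ, 1 < s.re → F s ≠ 0) ∧ κ = m ∧ ‖l‖ = Λ) ↔
          Tendsto (fun n : ℕ => LS a b κ n) atTop
            (𝓝 (κ * Real.eulerMascheroniConstant - Real.log Λ))) := by
  obtain ⟨m, l, hm, hl, hlim, H⟩ := equivNF a b hF hgr
  have e5 : ∀ κ : ℝ, ((∀ s : ℂ, 1 < s.re → F s ≠ 0) ∧ κ = m) ↔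
      Tendsto (fun n : ℕ => LS a b κ n) atTop
        (𝓝 (κ * Real.eulerMascheroniConstant - Real.log ‖l‖)) := fun κ => (H κ).out 0 5
  have e4 : ∀ κ : ℝ, ((∀ s : ℂ, 1 < s.re → F s ≠ 0) ∧ κ = m) ↔
      ∃ t : ℝ, Tendsto (fun n : ℕ => LS a b κ n) atTop (𝓝 t) := fun κ => (H κ).out 0 4
  refine ⟨m, l, hm, hl, hlim, fun κ => ?_, fun κ Λ hΛ => ⟨?_, fun h => ?_⟩⟩
  · tfae_have 1 ↔ 2 := (H κ).out 0 4
    tfae_have 1 ↔ 3 := (H κ).out 0 5
    tfae_have 1 ↔ 4 := (H κ).out 0 3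
    tfae_finish
  · rintro ⟨h1, h2, h3⟩
    have h4 := (e5 κ).1 ⟨h1, h2⟩
    rwa [h3] at h4
  · obtain ⟨h1, h2⟩ := (e4 κ).2 ⟨_, h⟩
    refine ⟨h1, h2, ?_⟩
    have h4 := (e5 κ).1 ⟨h1, h2⟩
    have h5 := tendsto_nhds_unique h4 h
    have h6 : Real.log ‖l‖ = Real.log Λ := by linarith
    exact Real.log_injOn_pos (norm_pos_iff.2 hl) hΛ h6

end Pool.Agent.Results.MP_9ab903_nt.LeadingCoefficient
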