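import Pool.Agent.H319R3.BO.NF

/-!
# Oscillation of the prime power sums of an elliptic curve around the value predicted by the
leading coefficient of its `L`-function

Let `E : y² = x³ + a x + b` be an elliptic curve over a number field `K` with integral coefficients,
`F` the entire continuation of its (incomplete) `L`-function, `m` its order of vanishing at `s = 1`
and `l = lim F(s) / (s - 1) ^ m`. Let `SP(n)` be the sum of `t_k(v) / (k q_v ^ k)` over the good
places `v` and the `k ≥ 1` with `q_v ^ k ≤ n`, where `t_k(v) = q_v ^ k + 1 - #E(k_{v,k})`. The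
(partial sum form of the) original conjecture of Birch and Swinnerton-Dyer is

`- SP(n) = r log log n + (r γ - log |l|) + o(1)`, `r` the rank of `E(K)`.

Let `Dev(n) = - SP(n) - m log log n - (m γ - log |l|)` be the deviation. It is proved here that

1. `limsup Dev(n) log n ≥ k / |Im ρ|` for every nonreal zero `ρ` of `F` with `Re ρ = 1`, `k` its
multiplicity; if `F` has a zero with `Re ρ > 1`, then `Dev(n)` is unbounded above;

2. if `F` has no real zero greater than `1`, then `liminf Dev(n) log n ≤ - k / |Im ρ|` for these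
zeros; if moreover `F` has a zero with `Re ρ > 1`, then `Dev(n)` is unbounded below.

So the sums cross the predicted value infinitely often, and the error term in the original
conjecture, if it is true, is `Ω_±(1 / log n)`. Neither the Riemann hypothesis nor any bound for
`F` is assumed.

Proof: a one-sided bound for `Dev` gives, by Landau's theorem (`core` of the library H438R3),
`F(1 + w) = exp (...)` with a Dirichlet series with nonnegative coefficients for `Re w > 0`. Then
`Dev(n) ≤ c / log n` makes `∑ (c / log n - Dev(n)) n ^ (-1-w)` a series with nonnegative coefficients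
(up to finitely many), its value at real `w = σ → 0` is `c log (1 / σ) + O(1)` (all poles cancel,
this is where the constant `m γ - log |l|` enters), and at `w = σ + i Im ρ` its absolute value is
at least `(k / |Im ρ|) log (1 / σ) - O(1)`.

The library of local data and prime power coefficients is by helper438 (H438R3), the comparison
series `∑ n ^ (-w) / (n log n)` is from the project H814-BSD (helper471, helper99).
-/

set_option autoImplicit false

open Filter NumberField Topology

namespace Pool.Agent.Results.MP_9ab903_nt.Oscillation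

open Pool.Agent.H438R3.BSD.NF Pool.Agent.H319R3.BO.NF

/-- See the introduction. -/
theorem result (K : Type) [Field K] [NumberField K] (a b : 𝓞 K)
    (_hab : 4 * a ^ 3 + 27 * b ^ 2 ≠ 0) (F : ℂ → ℂ) (hF : IsL a b F) :
    ∃ (m : ℕ) (l : ℂ), analyticOrderAt F 1 = m ∧ l ≠ 0 ∧
      Tendsto (fun s : ℂ => F s / (s - 1) ^ m) (𝓝[≠] 1) (𝓝 l) ∧
      ((∀ (ρ : ℂ) (k : ℕ), ρ.re = 1 → ρ.im ≠ 0 → analyticOrderAt F ρ = k →
          ∀ c : ℝ, c < k / |ρ.im| → ∃ᶠ n : ℕ in atTop, c / Real.log n < Dev a b m l n) ∧
        ((∃ ρ : ℂ, 1 < ρ.re ∧ F ρ = 0) → ∀ B : ℝ, ∃ᶠ n : ℕ in atTop, B < Dev a b m l n)) ∧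
      ((∀ σ : ℝ, 1 < σ → F σ ≠ 0) →
        (∀ (ρ : ℂ) (k : ℕ), ρ.re = 1 → ρ.im ≠ 0 → analyticOrderAt F ρ = k →
          ∀ c : ℝ, c < k / |ρ.im| → ∃ᶠ n : ℕ in atTop, Dev a b m l n < -(c / Real.log n)) ∧
        ((∃ ρ : ℂ, 1 < ρ.re ∧ F ρ = 0) → ∀ B : ℝ, ∃ᶠ n : ℕ in atTop, Dev a b m l n < B)) := by
  obtain ⟨m, l, hm, hl, hlim, H⟩ := oscNF a b hF
  refine ⟨m, l, hm, hl, hlim, ⟨fun ρ k h1 h2 h3 c hc => ?_, fun ⟨ρ, h1, h2⟩ B => ?_⟩,
    fun hreal => ⟨fun ρ k h1 h2 h3 c hc => ?_, fun ⟨ρ, h1, h2⟩ B => ?_⟩⟩
  · have h := (H 1 (Or.inl rfl) (by norm_num)).2 ρ k h1 h2 h3 c hc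
    simpa only [one_mul] using h
  · have h := (H 1 (Or.inl rfl) (by norm_num)).1 ρ h1 h2 B
    simpa only [one_mul] using h
  · have h := (H (-1) (Or.inr rfl) (fun _ => hreal)).2 ρ k h1 h2 h3 c hc
    refine h.mono fun n hn => ?_
    linarith
  · have h := (H (-1) (Or.inr rfl) (fun _ => hreal)).1 ρ h1 h2 (-B)
    refine h.mono fun n hn => ?_
    linarith

end Pool.Agent.Results.MP_9ab903_nt.Oscillation
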